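import Mathlib

set_option autoImplicit false

namespace Pool.Agent.Results.MP_5bb8bc_co.Antiprism

open Finset
open scoped symmDiff

/-- A binary matroid: finite ground set `E` and a GF(2)-subspace `C` of `2^E`. -/
structure BM where
  E : Finset ℕ
  C : Finset (Finset ℕ)
  sub : ∀ c ∈ C, c ⊆ E
  empty : ∅ ∈ C
  add : ∀ c ∈ C, ∀ d ∈ C, c ∆ d ∈ C

lemma card_sd (s t : Finset ℕ) : (s ∆ t).card + 2 * (s ∩ t).card = s.card + t.card := by
  have h1 := card_sdiff_add_card_inter s t
  have h2 := card_sdiff_add_card_inter t s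
  rw [inter_comm t s] at h2
  have h3 : (s ∆ t).card = (s \ t).card + (t \ s).card := by
    rw [symmDiff_def, sup_eq_union, card_union_of_disjoint disjoint_sdiff_sdiff]
  omega

lemma even_sd (s t : Finset ℕ) : Even (s ∆ t).card ↔ (Even s.card ↔ Even t.card) := by
  have := card_sd s t
  simp only [Nat.even_iff]; omega

lemma filter_sd (s t : Finset ℕ) (p : ℕ → Prop) [DecidablePred p] :
    (s ∆ t).filter p = s.filter p ∆ t.filter p := by
  ext x; simp only [mem_filter, mem_symmDiff]; tauto

lemma inter_sd (s t u : Finset ℕ) : (s ∆ t) ∩ u = (s ∩ u) ∆ (t ∩ u) := by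
  ext x; simp only [mem_inter, mem_symmDiff]; tauto

lemma sd_sub {s t u : Finset ℕ} (hs : s ⊆ u) (ht : t ⊆ u) : s ∆ t ⊆ u := by
  intro x hx; rw [mem_symmDiff] at hx; rcases hx with h | h
  exacts [hs h.1, ht h.1]

/-- The cocycle space `C^⊥`. -/
def BM.K (M : BM) : Finset (Finset ℕ) :=
  M.E.powerset.filter (fun k => ∀ c ∈ M.C, Even (k ∩ c).card)

/-- The dual matroid. -/
def BM.dual (M : BM) : BM where
  E := M.E
  C := M.K
  sub := fun c hc => mem_powerset.1 (mem_filter.1 hc).1
  empty := by simp [BM.K]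
  add := by
    intro c hc d hd
    simp only [BM.K, mem_filter, mem_powerset] at *
    refine ⟨sd_sub hc.1 hd.1, fun k hk => ?_⟩
    rw [inter_sd, even_sd]
    exact iff_of_true (hc.2 k hk) (hd.2 k hk)

/-- Reduction `M|A`. -/
def BM.red (M : BM) (A : Finset ℕ) : BM where
  E := A
  C := M.C.filter (fun c => c ⊆ A)
  sub := fun c hc => (mem_filter.1 hc).2
  empty := by simp [M.empty]
  add := by
    intro c hc d hd
    simp only [mem_filter] at *
    exact ⟨M.add c hc.1 d hd.1, sd_sub hc.2 hd.2⟩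

/-- Contraction `M·A`. -/
def BM.con (M : BM) (A : Finset ℕ) : BM where
  E := A
  C := M.C.image (fun c => c ∩ A)
  sub := by
    intro c hc
    obtain ⟨d, -, rfl⟩ := mem_image.1 hc
    exact inter_subset_right
  empty := mem_image.2 ⟨∅, M.empty, by simp⟩
  add := by
    intro c hc d hd
    obtain ⟨c', h1, rfl⟩ := mem_image.1 hc
    obtain ⟨d', h2, rfl⟩ := mem_image.1 hd
    exact mem_image.2 ⟨_, M.add _ h1 _ h2, inter_sd _ _ _⟩

/-- `Minor M N`: `N` arises from `M` by finitely many reductions and contractions. -/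
inductive Minor (M : BM) : BM → Prop
  | refl : Minor M M
  | red (N : BM) (A : Finset ℕ) : Minor M N → A ⊆ N.E → Minor M (N.red A)
  | con (N : BM) (A : Finset ℕ) : Minor M N → A ⊆ N.E → Minor M (N.con A)

/-- Dimension of a finite GF(2)-space, `log₂` of its cardinality. -/
def dim (S : Finset (Finset ℕ)) : ℕ := Nat.log 2 S.card

/-- The bicycle space `B_M(A)`. -/
def BM.bic (M : BM) (A : Finset ℕ) : Finset (Finset ℕ) := M.C.filter (fun c => c ∩ A ∈ M.K)

/-- The Penrose polynomial. -/
noncomputable def BM.penrose (M : BM) : Polynomial ℤ :=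
  ∑ A ∈ M.E.powerset, Polynomial.C ((-1 : ℤ) ^ A.card) * Polynomial.X ^ dim (M.bic A)

def BM.Alternating (M : BM) : Prop :=
  ∀ i ≤ dim M.C, 0 < (-1 : ℤ) ^ (dim M.C - i) * M.penrose.coeff i

def BM.Bridgeless (M : BM) : Prop := ∀ e ∈ M.E, ∃ c ∈ M.C, e ∈ c

def BM.MinNonAlt (M : BM) : Prop :=
  M.Bridgeless ∧ ¬ M.Alternating ∧
    ∀ N, Minor M N → N.E.card < M.E.card → N.Bridgeless → N.Alternating

/-- Isomorphism of binary matroids. -/
def Iso (M N : BM) : Prop :=
  ∃ f : ℕ → ℕ, Set.BijOn f M.E N.E ∧ ∀ c ⊆ M.E, (c ∈ M.C ↔ c.image f ∈ N.C)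

/-- Cycle matroid of the loopless graph on vertices `0..n-1` whose `e`-th edge is `L[e]`:
cycles are the edge sets of even subgraphs. -/
def graphM (n : ℕ) (L : List (ℕ × ℕ)) : BM where
  E := range L.length
  C := (range L.length).powerset.filter (fun c => ∀ v ∈ range n,
    Even (c.filter (fun e => (L.getD e (0, 0)).1 = v ∨ (L.getD e (0, 0)).2 = v)).card)
  sub := fun c hc => mem_powerset.1 (mem_filter.1 hc).1
  empty := by simp
  add := by
    intro c hc d hd
    simp only [mem_filter, mem_powerset] at *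
    refine ⟨sd_sub hc.1 hd.1, fun v hv => ?_⟩
    rw [filter_sd, even_sd]
    exact iff_of_true (hc.2 v hv) (hd.2 v hv)

/-- The lines of the Fano plane on the points `0..6`. -/
def line (i : ℕ) : Finset ℕ := {i % 7, (i + 1) % 7, (i + 3) % 7}

/-- The Fano matroid: cycle space = all GF(2)-sums of lines. -/
def fano : BM where
  E := range 7
  C := (range 7).powerset.image
    (fun T => (range 7).filter (fun e => ¬ Even (T.filter (fun i => e ∈ line i)).card))
  sub := by
    intro c hc
    obtain ⟨T, -, rfl⟩ := mem_image.1 hc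
    exact filter_subset _ _
  empty := mem_image.2 ⟨∅, by simp, by simp⟩
  add := by
    intro c hc d hd
    obtain ⟨T, h1, rfl⟩ := mem_image.1 hc
    obtain ⟨U, h2, rfl⟩ := mem_image.1 hd
    refine mem_image.2 ⟨T ∆ U, mem_powerset.2 (sd_sub (mem_powerset.1 h1) (mem_powerset.1 h2)), ?_⟩
    ext e
    rw [mem_filter, filter_sd, even_sd, mem_symmDiff, mem_filter, mem_filter]
    have : ∀ p q r : Prop, (r ∧ ¬(p ↔ q)) ↔ ((r ∧ ¬p) ∧ ¬(r ∧ ¬q) ∨ (r ∧ ¬q) ∧ ¬(r ∧ ¬p)) := by
      grind
    exact this _ _ _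

def petersen : BM := graphM 10
  [(0, 1), (1, 2), (2, 3), (3, 4), (4, 0), (0, 5), (1, 6), (2, 7), (3, 8), (4, 9),
   (5, 7), (7, 9), (9, 6), (6, 8), (8, 5)]

def k5 : BM := graphM 5
  [(0, 1), (0, 2), (0, 3), (0, 4), (1, 2), (1, 3), (1, 4), (2, 3), (2, 4), (3, 4)]

/-! ### Graph representations, preserved by minors -/

def cut (a b : ℕ → ℕ) (E S : Finset ℕ) : Finset ℕ := E.filter (fun e => ¬ (a e ∈ S ↔ b e ∈ S))

def Cog (E : Finset ℕ) (P : Finset ℕ → Prop) : Prop :=
  ∃ a b : ℕ → ℕ, ∀ c, P c ↔ ∃ S, c = cut a b E S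

def Gr (E : Finset ℕ) (P : Finset ℕ → Prop) : Prop :=
  ∃ a b : ℕ → ℕ, ∀ c, P c ↔ c ⊆ E ∧ ∀ w, Even (cut a b c {w}).card

lemma cog_del {E : Finset ℕ} {P : Finset ℕ → Prop} (h : Cog E P) (e : ℕ) :
    Cog (E.erase e) (fun c => P c ∧ e ∉ c) := by
  obtain ⟨a, b, h⟩ := h
  by_cases he : e ∈ E
  · refine ⟨fun x => if a x = b e then a e else a x, fun x => if b x = b e then a e else b x,
      fun c => ?_⟩
    beta_reduce
    rw [h]
    constructor
    · rintro ⟨⟨S, rfl⟩, h2⟩
      refine ⟨S, ?_⟩
      ext x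
      simp only [cut, mem_filter, mem_erase] at *
      grind
    · rintro ⟨S, rfl⟩
      refine ⟨⟨if a e ∈ S then insert (b e) S else S.erase (b e), ?_⟩, by simp [cut]⟩
      ext x
      split_ifs <;> simp only [cut, mem_filter, mem_erase, mem_insert] <;> grind
  · refine ⟨a, b, fun c => ?_⟩
    beta_reduce
    rw [h, erase_eq_of_notMem he]
    constructor
    · exact fun h => h.1
    · rintro ⟨S, rfl⟩
      exact ⟨⟨S, rfl⟩, fun h => he (mem_filter.1 h).1⟩

lemma cog_dels {E : Finset ℕ} {P : Finset ℕ → Prop} (h : Cog E P) (D : Finset ℕ) :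
    Cog (E \ D) (fun c => P c ∧ Disjoint c D) := by
  induction D using Finset.induction_on with
  | empty => simpa using h
  | insert e D he ih =>
    have := cog_del ih e
    rw [sdiff_insert]
    convert this using 2 with c
    simp only [disjoint_insert_right]
    tauto

lemma cut_insert (a b : ℕ → ℕ) (c S : Finset ℕ) (e : ℕ) (he : e ∉ c) :
    (cut a b (insert e c) S).card = (cut a b c S).card + if (a e ∈ S ↔ b e ∈ S) then 0 else 1 := by
  unfold cut
  rw [filter_insert]
  by_cases h1 : (a e ∈ S ↔ b e ∈ S)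
  · rw [if_neg (not_not.2 h1), if_pos h1]; rfl
  · rw [if_pos h1, if_neg h1, card_insert_of_notMem (fun h => he (mem_filter.1 h).1)]

lemma cut_erase (a b : ℕ → ℕ) (c S : Finset ℕ) (e : ℕ) (he : a e ∈ S ↔ b e ∈ S) :
    cut a b (c.erase e) S = cut a b c S := by
  ext x; simp only [cut, mem_filter, mem_erase]; grind

lemma gr_con {E : Finset ℕ} {P : Finset ℕ → Prop} (h : Gr E P) (e : ℕ) :
    Gr (E.erase e) (fun c => ∃ d, P d ∧ c = d.erase e) := by
  obtain ⟨a, b, h⟩ := h
  by_cases he : e ∈ E ∧ a e ≠ b e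
  · refine ⟨fun x => if a x = b e then a e else a x, fun x => if b x = b e then a e else b x,
      fun c => ?_⟩
    have k1 : ∀ c, cut (fun x => if a x = b e then a e else a x)
        (fun x => if b x = b e then a e else b x) c {a e} = cut a b c {a e} ∆ cut a b c {b e} := by
      intro c; ext x; simp only [cut, mem_filter, mem_symmDiff, mem_singleton]; grind
    have k2 : ∀ c, cut (fun x => if a x = b e then a e else a x)
        (fun x => if b x = b e then a e else b x) c {b e} = ∅ := by
      intro c; ext x; simp only [cut, mem_filter, mem_singleton, notMem_empty]; grind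
    have k3 : ∀ c w, w ≠ a e → w ≠ b e → cut (fun x => if a x = b e then a e else a x)
        (fun x => if b x = b e then a e else b x) c {w} = cut a b c {w} := by
      intro c w h1 h2; ext x; simp only [cut, mem_filter, mem_singleton]; grind
    constructor
    · rintro ⟨d, hd, rfl⟩
      rw [h] at hd
      refine ⟨erase_subset_erase _ hd.1, fun w => ?_⟩
      rw [cut_erase _ _ _ _ _ (by simp)]
      by_cases h1 : w = a e
      · rw [h1, k1, even_sd]; exact iff_of_true (hd.2 _) (hd.2 _)
      · by_cases h2 : w = b e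
        · rw [h2, k2]; simp
        · rw [k3 _ _ h1 h2]; exact hd.2 _
    · rintro ⟨h1, h2⟩
      have hec : e ∉ c := fun h => by simpa using h1 h
      have hc : c ⊆ E := h1.trans (erase_subset _ _)
      have h3 := h2 (a e)
      rw [k1, even_sd] at h3
      by_cases h4 : Even (cut a b c {a e}).card
      · refine ⟨c, (h c).2 ⟨hc, fun w => ?_⟩, (erase_eq_of_notMem hec).symm⟩
        by_cases h5 : w = a e
        · rw [h5]; exact h4
        · by_cases h6 : w = b e
          · rw [h6]; exact h3.1 h4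
          · rw [← k3 _ _ h5 h6]; exact h2 w
      · refine ⟨insert e c, (h _).2 ⟨insert_subset he.1 hc, fun w => ?_⟩, (erase_insert hec).symm⟩
        rw [cut_insert _ _ _ _ _ hec]
        have := he.2
        by_cases h5 : w = a e
        · rw [h5, if_neg (by simp only [mem_singleton]; grind), Nat.even_add_one]; exact h4
        · by_cases h6 : w = b e
          · rw [h6, if_neg (by simp only [mem_singleton]; grind), Nat.even_add_one]
            exact fun h => h4 (h3.2 h)
          · rw [if_pos (by simp only [mem_singleton]; grind), add_zero, ← k3 _ _ h5 h6]; exact h2 w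
  · refine ⟨a, b, fun c => ?_⟩
    constructor
    · rintro ⟨d, hd, rfl⟩
      rw [h] at hd
      refine ⟨erase_subset_erase _ hd.1, fun w => ?_⟩
      by_cases h1 : e ∈ E
      · have h2 : a e = b e := by tauto
        rw [cut_erase _ _ _ _ _ (by rw [h2])]; exact hd.2 w
      · rw [erase_eq_of_notMem (fun h => h1 (hd.1 h))]; exact hd.2 w
    · rintro ⟨h1, h2⟩
      have hec : e ∉ c := fun h => by simpa using h1 h
      exact ⟨c, (h c).2 ⟨h1.trans (erase_subset _ _), h2⟩, (erase_eq_of_notMem hec).symm⟩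

lemma gr_cons {E : Finset ℕ} {P : Finset ℕ → Prop} (h : Gr E P) (D : Finset ℕ) :
    Gr (E \ D) (fun c => ∃ d, P d ∧ c = d \ D) := by
  induction D using Finset.induction_on with
  | empty => simpa using h
  | insert e D he ih =>
    have := gr_con ih e
    rw [sdiff_insert]
    convert this using 2 with c
    constructor
    · rintro ⟨d, h1, rfl⟩; exact ⟨_, ⟨d, h1, rfl⟩, sdiff_insert _ _ _⟩
    · rintro ⟨_, ⟨d, h1, rfl⟩, rfl⟩; exact ⟨d, h1, (sdiff_insert _ _ _).symm⟩

lemma minor_cog {M N : BM} (h : Minor M N) (h0 : Cog M.E (· ∈ M.C)) : Cog N.E (· ∈ N.C) := by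
  induction h with
  | refl => exact h0
  | red N A _ hA ih =>
    have := cog_dels ih (N.E \ A)
    rw [Finset.sdiff_sdiff_eq_self hA] at this
    convert this using 2 with c
    · rfl
    simp only [BM.red, mem_filter, and_congr_right_iff]
    intro hc
    have := N.sub c hc
    rw [disjoint_left]
    simp only [mem_sdiff]
    exact ⟨fun h x hx hh => hh.2 (h hx), fun h x hx => by_contra fun hh => h hx ⟨this hx, hh⟩⟩
  | con N A _ hA ih =>
    obtain ⟨a, b, h⟩ := ih
    refine ⟨a, b, fun c => ?_⟩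
    have key : ∀ S, cut a b N.E S ∩ A = cut a b A S := by
      intro S; ext x; simp only [cut, mem_filter, mem_inter]
      exact ⟨fun h => ⟨h.2, h.1.2⟩, fun h => ⟨⟨hA h.1, h.2⟩, h.1⟩⟩
    simp only [BM.con, mem_image]
    constructor
    · rintro ⟨d, hd, rfl⟩
      obtain ⟨S, rfl⟩ := (h d).1 hd
      exact ⟨S, key S⟩
    · rintro ⟨S, rfl⟩
      exact ⟨_, (h _).2 ⟨S, rfl⟩, key S⟩

lemma minor_gr {M N : BM} (h : Minor M N) (h0 : Gr M.E (· ∈ M.C)) : Gr N.E (· ∈ N.C) := by
  induction h with
  | refl => exact h0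
  | red N A _ hA ih =>
    obtain ⟨a, b, h⟩ := ih
    refine ⟨a, b, fun c => ?_⟩
    simp only [BM.red, mem_filter]
    have := h c
    simp only at this
    rw [this]
    exact ⟨fun h => ⟨h.2, h.1.2⟩, fun h => ⟨⟨h.1.trans hA, h.2⟩, h.1⟩⟩
  | con N A _ hA ih =>
    have := gr_cons ih (N.E \ A)
    rw [Finset.sdiff_sdiff_eq_self hA] at this
    convert this using 2 with c
    · rfl
    simp only [BM.con, mem_image]
    have key : ∀ d ∈ N.C, d ∩ A = d \ (N.E \ A) := by
      intro d hd; ext x
      have := N.sub d hd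
      simp only [mem_inter, mem_sdiff]
      exact ⟨fun h => ⟨h.1, fun hh => hh.2 h.2⟩, fun h => ⟨h.1, by_contra fun hh => h.2 ⟨this h.1, hh⟩⟩⟩
    constructor
    · rintro ⟨d, hd, rfl⟩; exact ⟨d, hd, key d hd⟩
    · rintro ⟨d, hd, rfl⟩; exact ⟨d, hd, key d hd⟩

lemma minor_trans {M N Q : BM} (h1 : Minor M N) (h2 : Minor N Q) : Minor M Q := by
  induction h2 with
  | refl => exact h1
  | red Q A _ hA ih => exact Minor.red Q A ih hA
  | con Q A _ hA ih => exact Minor.con Q A ih hA

lemma minor_keep {M N : BM} (h : Minor M N) : N.E ⊆ M.E ∧ ∀ s ∈ M.C, s ⊆ N.E → s ∈ N.C := by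
  induction h with
  | refl => exact ⟨Subset.refl _, fun s hs _ => hs⟩
  | red N A _ hA ih =>
    exact ⟨hA.trans ih.1, fun s hs h => mem_filter.2 ⟨ih.2 s hs (h.trans hA), h⟩⟩
  | con N A _ hA ih =>
    exact ⟨hA.trans ih.1, fun s hs h => mem_image.2 ⟨s, ih.2 s hs (h.trans hA), inter_eq_left.2 h⟩⟩

/-- Handshake lemma. -/
lemma handshake (a b : ℕ → ℕ) (c W : Finset ℕ) (hW : ∀ e ∈ c, a e ≠ b e → a e ∈ W ∧ b e ∈ W) :
    ∑ w ∈ W, (cut a b c {w}).card = 2 * (c.filter (fun e => a e ≠ b e)).card := by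
  induction c using Finset.induction_on with
  | empty => simp [cut]
  | insert e c he ih =>
    simp only [cut_insert _ _ _ _ _ he, sum_add_distrib]
    rw [ih (fun x hx => hW x (mem_insert_of_mem hx)), filter_insert]
    by_cases h : a e = b e
    · simp [h]
    · rw [if_pos h, card_insert_of_notMem (fun h => he (mem_filter.1 h).1)]
      obtain ⟨h1, h2⟩ := hW e (mem_insert_self _ _) h
      have : ∑ w ∈ W, (if (a e ∈ ({w} : Finset ℕ) ↔ b e ∈ ({w} : Finset ℕ)) then 0 else 1) =
          ∑ w ∈ W, ((if a e = w then 1 else 0) + (if b e = w then 1 else 0)) := by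
        refine sum_congr rfl fun w _ => ?_
        simp only [mem_singleton]
        grind
      rw [this, sum_add_distrib, sum_ite_eq, sum_ite_eq, if_pos h1, if_pos h2]
      ring

lemma filter_inter_distrib_aux (p : ℕ → Prop) [DecidablePred p] {E : Finset ℕ} (c : Finset ℕ)
    (hc : c ⊆ E) : E.filter p ∩ c = c.filter p := by
  ext x; simp only [mem_filter, mem_inter]
  exact ⟨fun h => ⟨h.2, h.1.2⟩, fun h => ⟨⟨hc h.1, h.2⟩, h.1⟩⟩

/-! ### Isomorphism invariants -/

lemma iso_card {M N : BM} (h : Iso M N) : M.E.card = N.E.card := by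
  obtain ⟨f, hf, -⟩ := h
  exact card_nbij f hf.1 hf.2.1 hf.2.2

lemma iso_weight {M N : BM} (h : Iso M N) {c : Finset ℕ} (hc : c ∈ M.C) :
    ∃ d ∈ N.C, d.card = c.card := by
  obtain ⟨f, hf, h⟩ := h
  exact ⟨_, (h c (M.sub c hc)).1 hc, card_image_of_injOn (hf.2.1.mono (M.sub c hc))⟩

lemma iso_cardC {M N : BM} (h : Iso M N) : M.C.card ≤ N.C.card := by
  obtain ⟨f, hf, h⟩ := h
  refine card_le_card_of_injOn (fun c => c.image f) (fun c hc => (h c (M.sub c hc)).1 hc) ?_
  intro c hc d hd e
  have key : ∀ c d : Finset ℕ, c ⊆ M.E → d ⊆ M.E → c.image f = d.image f → c ⊆ d := by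
    intro c d h1 h2 e x hx
    have : f x ∈ d.image f := e ▸ mem_image_of_mem f hx
    obtain ⟨y, hy, e2⟩ := mem_image.1 this
    rw [← hf.2.1 (h2 hy) (h1 hx) e2]; exact hy
  exact Subset.antisymm (key _ _ (M.sub c hc) (M.sub d hd) e) (key _ _ (M.sub d hd) (M.sub c hc) e.symm)

lemma iso_K {M N : BM} (h : Iso M N) {k : Finset ℕ} (hk : k ∈ M.K) :
    ∃ d ∈ N.K, d.card = k.card := by
  obtain ⟨f, hf, h⟩ := h
  simp only [BM.K, mem_filter, mem_powerset] at *
  refine ⟨k.image f, ⟨?_, fun c hc => ?_⟩, card_image_of_injOn (hf.2.1.mono hk.1)⟩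
  · intro y hy
    obtain ⟨x, hx, rfl⟩ := mem_image.1 hy
    exact hf.1 (hk.1 hx)
  · have e : (M.E.filter (fun x => f x ∈ c)).image f = c := by
      ext y
      simp only [mem_image, mem_filter]
      constructor
      · rintro ⟨x, hx, rfl⟩; exact hx.2
      · intro hy
        obtain ⟨x, hx, rfl⟩ := hf.2.2 (N.sub c hc hy)
        exact ⟨x, ⟨hx, hy⟩, rfl⟩
    have h1 := (h _ (filter_subset (fun x => f x ∈ c) _)).2 (by rw [e]; exact hc)
    have h2 := hk.2 _ h1
    have e2 : k.image f ∩ c = (k ∩ M.E.filter (fun x => f x ∈ c)).image f := by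
      ext y
      simp only [mem_image, mem_filter, mem_inter]
      constructor
      · rintro ⟨⟨x, hx, rfl⟩, hy⟩; exact ⟨x, ⟨hx, hk.1 hx, hy⟩, rfl⟩
      · rintro ⟨x, hx, rfl⟩; exact ⟨⟨x, hx.1, rfl⟩, hx.2.2⟩
    rw [e2, card_image_of_injOn (hf.2.1.mono (inter_subset_left.trans hk.1))]
    exact h2

/-! ### Excluding `F*` and `K₅*` -/

lemma fano_w : ∀ c ∈ fano.dual.C, 4 ∣ c.card := by decide +kernel

lemma not_fano {N : BM} (hb : N.Bridgeless) (hc : Cog N.E (· ∈ N.C)) : ¬ Iso N fano.dual := by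
  intro h
  obtain ⟨a, b, hc⟩ := hc
  have h7 : N.E.card = 7 := iso_card h
  have h1 := handshake a b N.E (N.E.image a ∪ N.E.image b) (fun e he _ =>
    ⟨mem_union_left _ (mem_image_of_mem _ he), mem_union_right _ (mem_image_of_mem _ he)⟩)
  rw [filter_true_of_mem, h7] at h1
  · have : 4 ∣ ∑ w ∈ N.E.image a ∪ N.E.image b, (cut a b N.E {w}).card := by
      refine dvd_sum fun w _ => ?_
      obtain ⟨d, hd, e⟩ := iso_weight h ((hc _).2 ⟨{w}, rfl⟩)
      rw [← e]; exact fano_w d hd
    rw [h1] at this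
    omega
  · intro e he h
    obtain ⟨c, h1, h2⟩ := hb e he
    obtain ⟨S, rfl⟩ := (hc c).1 h1
    exact (mem_filter.1 h2).2 (by rw [h])

def tri : Finset (Finset ℕ) := {{0, 1, 4}, {0, 2, 5}, {0, 3, 6}, {1, 2, 7}, {1, 3, 8}, {2, 3, 9}}
def sta : Finset (Finset ℕ) := {{0, 1, 2, 3}, {0, 4, 5, 6}, {1, 4, 7, 8}, {2, 5, 7, 9}, {3, 6, 8, 9}}

lemma k5_card : k5.dual.C.card ≤ 16 := by
  have h1 : ∀ t ∈ tri, t ∈ k5.C := by
    simp only [k5, graphM, mem_filter, mem_powerset]
    decide +kernel
  have h2 : ((range 10).powerset.filter (fun k => ∀ t ∈ tri, Even (k ∩ t).card)).card = 16 := by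
    decide +kernel
  rw [← h2]
  refine card_le_card fun k hk => ?_
  simp only [BM.dual, BM.K, mem_filter] at *
  exact ⟨hk.1, fun t ht => hk.2 t (h1 t ht)⟩

lemma k5_K : ∀ k ∈ k5.dual.K, k.card = 0 ∨ 3 ≤ k.card := by
  have h1 : ∀ t ∈ sta, t ∈ k5.dual.C := by
    have h3 : ∀ t ∈ sta, t ⊆ range 10 ∧ ∃ v ∈ range 5, t = (range 10).filter (fun e =>
      (([(0, 1), (0, 2), (0, 3), (0, 4), (1, 2), (1, 3), (1, 4), (2, 3), (2, 4), (3, 4)] :
        List (ℕ × ℕ)).getD e (0, 0)).1 = v ∨
      (([(0, 1), (0, 2), (0, 3), (0, 4), (1, 2), (1, 3), (1, 4), (2, 3), (2, 4), (3, 4)] :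
        List (ℕ × ℕ)).getD e (0, 0)).2 = v) := by decide +kernel
    intro t ht
    obtain ⟨h4, v, hv, h5⟩ := h3 t ht
    refine mem_filter.2 ⟨mem_powerset.2 h4, fun c hc => ?_⟩
    obtain ⟨h6, h7⟩ := mem_filter.1 hc
    have h8 := h7 v hv
    have h9 : c ⊆ range 10 := mem_powerset.1 h6
    rw [h5, filter_inter_distrib_aux _ _ h9]
    exact h8
  have h2 : ∀ k ∈ (range 10).powerset, (∀ t ∈ sta, Even (k ∩ t).card) → k.card = 0 ∨ 3 ≤ k.card := by
    decide +kernel
  intro k hk
  obtain ⟨h3, h4⟩ := mem_filter.1 hk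
  exact h2 k h3 (fun t ht => h4 t (h1 t ht))

lemma not_k5 {N : BM} (hg : Gr N.E (· ∈ N.C)) : ¬ Iso N k5.dual := by
  intro h
  obtain ⟨a, b, hg⟩ := hg
  have h10 : N.E.card = 10 := iso_card h
  have h16 : N.C.card ≤ 16 := (iso_cardC h).trans k5_card
  have hcut : ∀ c ⊆ N.E, ∀ w, cut a b N.E {w} ∩ c = cut a b c {w} := fun c hc w =>
    filter_inter_distrib_aux _ _ hc
  set W := (N.E.image a ∪ N.E.image b).filter (fun w => (cut a b N.E {w}).Nonempty) with hW
  have hWm : ∀ e ∈ N.E, a e ≠ b e → a e ∈ W ∧ b e ∈ W := by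
    intro e he h
    exact ⟨mem_filter.2 ⟨mem_union_left _ (mem_image_of_mem _ he), e,
        mem_filter.2 ⟨he, by simp only [mem_singleton]; grind⟩⟩,
      mem_filter.2 ⟨mem_union_right _ (mem_image_of_mem _ he), e,
        mem_filter.2 ⟨he, by simp only [mem_singleton]; grind⟩⟩⟩
  have h6 : W.card ≤ 6 := by
    have h1 := handshake a b N.E W hWm
    have h2 := card_filter_le N.E (fun e => a e ≠ b e)
    have h3 : W.card • 3 ≤ ∑ w ∈ W, (cut a b N.E {w}).card := by
      refine card_nsmul_le_sum _ _ _ fun w hw => ?_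
      have hk : cut a b N.E {w} ∈ N.K := mem_filter.2 ⟨mem_powerset.2 (filter_subset _ _),
        fun c hc => by rw [hcut c (N.sub c hc)]; exact ((hg c).1 hc).2 w⟩
      obtain ⟨d, hd, e⟩ := iso_K h hk
      have := k5_K d hd
      have := card_pos.2 (mem_filter.1 hw).2
      omega
    rw [smul_eq_mul] at h3
    omega
  obtain ⟨V, hV5, hV⟩ : ∃ V : Finset ℕ, V.card ≤ 5 ∧ ∀ c ⊆ N.E,
      (∀ w ∈ V, Even (cut a b c {w}).card) → c ∈ N.C := by
    have key : ∀ c ⊆ N.E, (∀ w ∈ W, Even (cut a b c {w}).card) → c ∈ N.C := by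
      intro c hc h1
      refine (hg c).2 ⟨hc, fun w => ?_⟩
      by_cases hw : w ∈ W
      · exact h1 w hw
      · have : cut a b c {w} = ∅ := by
          refine eq_empty_of_forall_notMem fun e he => hw ?_
          obtain ⟨h2, h3⟩ := mem_filter.1 he
          simp only [mem_singleton] at h3
          have := hWm e (hc h2) (by grind)
          grind
        rw [this]; simp
    rcases W.eq_empty_or_nonempty with h0 | ⟨w0, h0⟩
    · exact ⟨W, by rw [h0]; simp, key⟩
    · refine ⟨W.erase w0, by rw [card_erase_of_mem h0]; omega, fun c hc h1 => key c hc fun w hw => ?_⟩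
      by_cases e : w = w0
      · have h2 := handshake a b c W (fun e he => hWm e (hc he))
        rw [← add_sum_erase _ _ h0] at h2
        have h3 : Even (∑ w ∈ W.erase w0, (cut a b c {w}).card) := even_sum _ h1
        rw [e]
        simp only [Nat.even_iff] at *
        omega
      · exact h1 w (mem_erase.2 ⟨e, hw⟩)
  obtain ⟨y, -, hy⟩ := exists_lt_card_fiber_of_mul_lt_card_of_maps_to (s := N.E.powerset)
    (t := V.powerset) (f := fun c => V.filter (fun w => Even (cut a b c {w}).card)) (n := 16)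
    (fun c _ => mem_powerset.2 (filter_subset _ _)) (by
      rw [card_powerset, card_powerset, h10]
      have := Nat.pow_le_pow_right (by norm_num : 0 < 2) hV5
      omega)
  obtain ⟨c0, hc0⟩ := card_pos.1 (lt_of_le_of_lt (Nat.zero_le _) hy)
  have := card_le_card_of_injOn (t := N.C) (fun c => c ∆ c0)
    (s := N.E.powerset.filter (fun c => V.filter (fun w => Even (cut a b c {w}).card) = y)) (by
      intro c hc
      obtain ⟨h1, h2⟩ := mem_filter.1 (mem_coe.1 hc)
      obtain ⟨h3, h4⟩ := mem_filter.1 hc0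
      refine hV _ (sd_sub (mem_powerset.1 h1) (mem_powerset.1 h3)) fun w hw => ?_
      have h5 := Finset.ext_iff.1 (h2.trans h4.symm) w
      simp only [mem_filter, hw, true_and] at h5
      unfold cut at *
      rw [filter_sd, even_sd]; exact h5) (fun c _ d _ e => symmDiff_left_injective c0 e)
  omega

lemma pet_w : ∀ c ∈ petersen.C, c.card ≠ 4 := by
  have : ∀ c ∈ powersetCard 4 (range 15), c ∉ petersen.C := by
    simp only [petersen, graphM, mem_filter, mem_powerset]
    decide +kernel
  intro c hc h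
  exact this c (mem_powersetCard.2 ⟨petersen.sub c hc, h⟩) hc

/-! ### The cut space of the square antiprism -/

def ea (e : ℕ) : ℕ := e % 8
def eb (e : ℕ) : ℕ := if e < 8 then (e + 1) % 8 else (e + 2) % 8

def cyc (j : ℕ) : Finset ℕ := (range 16).filter (fun e => j.testBit (ea e) ≠ j.testBit (eb e))

def M0 : BM where
  E := range 16
  C := (range 128).image cyc
  sub := by
    intro c hc
    obtain ⟨j, -, rfl⟩ := mem_image.1 hc
    exact filter_subset _ _
  empty := mem_image.2 ⟨0, by simp, by simp [cyc]⟩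
  add := by
    intro c hc d hd
    obtain ⟨i, h1, rfl⟩ := mem_image.1 hc
    obtain ⟨j, h2, rfl⟩ := mem_image.1 hd
    refine mem_image.2 ⟨i ^^^ j, mem_range.2
      (Nat.xor_lt_two_pow (n := 7) (mem_range.1 h1) (mem_range.1 h2)), ?_⟩
    ext e
    simp only [cyc, mem_filter, mem_symmDiff, Nat.testBit_xor]
    grind

lemma bits (f : ℕ → Bool) (h : f 7 = false) : ∃ j < 128, ∀ i < 8, j.testBit i = f i := by
  refine ⟨Nat.ofBits (n := 7) (fun i => f i), Nat.ofBits_lt_two_pow _, fun i hi => ?_⟩
  rw [Nat.testBit_ofBits]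
  split_ifs with h1
  · rfl
  · have : i = 7 := by omega
    rw [this, h]

lemma ea_lt (e : ℕ) : ea e < 8 := Nat.mod_lt _ (by norm_num)
lemma eb_lt (e : ℕ) : eb e < 8 := by unfold eb; split_ifs <;> exact Nat.mod_lt _ (by norm_num)

lemma cut_mem (S : Finset ℕ) : cut ea eb (range 16) S ∈ M0.C := by
  obtain ⟨j, h1, h2⟩ := bits (fun i => decide (¬ (i ∈ S ↔ 7 ∈ S))) (by simp)
  refine mem_image.2 ⟨j, mem_range.2 h1, ?_⟩
  ext e
  simp only [cyc, cut, mem_filter, h2 _ (ea_lt e), h2 _ (eb_lt e)]
  grind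

lemma cyc_eq (j : ℕ) : cyc j = cut ea eb (range 16) ((range 8).filter (fun i => j.testBit i)) := by
  ext e
  simp only [cyc, cut, mem_filter, mem_range, ea_lt, eb_lt]
  grind

lemma M0_cog : Cog M0.E (· ∈ M0.C) := by
  refine ⟨ea, eb, fun c => ⟨fun hc => ?_, ?_⟩⟩
  · obtain ⟨j, -, rfl⟩ := mem_image.1 hc
    exact ⟨_, cyc_eq j⟩
  · rintro ⟨S, rfl⟩; exact cut_mem S

def fb (e : ℕ) : ℕ := if e < 8 then (e + 7) % 8 else 8 + e % 2

lemma card_ind (c : Finset ℕ) (hc : c ⊆ range 16) (p : ℕ → Prop) [DecidablePred p] :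
    (c.filter p).card = ∑ e ∈ range 16, if p e then (if e ∈ c then 1 else 0) else 0 := by
  rw [← sum_filter, ← card_filter]
  congr 1
  ext e
  simp only [mem_filter]
  exact ⟨fun h => ⟨⟨hc h.1, h.2⟩, h.1⟩, fun h => ⟨h.2, h.1.2⟩⟩

lemma M0_gr : Gr M0.E (· ∈ M0.C) := by
  refine ⟨ea, fb, fun c => ⟨fun hc => ⟨M0.sub c hc, fun w => ?_⟩, ?_⟩⟩
  · obtain ⟨j, hj, rfl⟩ := mem_image.1 hc
    have h1 : ∀ j ∈ range 128, ∀ w ∈ range 10, Even (cut ea fb (cyc j) {w}).card := by
      decide +kernel
    by_cases hw : w < 10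
    · exact h1 j hj w (mem_range.2 hw)
    · have : cut ea fb (cyc j) {w} = ∅ := by
        refine filter_eq_empty_iff.2 fun e _ => ?_
        have := ea_lt e
        have : fb e < 10 := by unfold fb; split_ifs <;> omega
        simp only [mem_singleton]; grind
      rw [this]; simp
  · rintro ⟨h1, h2⟩
    have h3 := fun w => h2 w
    simp only [cut, card_ind c h1, Nat.even_iff] at h3
    have t0 := h3 0
    have t1 := h3 1
    have t2 := h3 2
    have t3 := h3 3
    have t4 := h3 4
    have t5 := h3 5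
    have t6 := h3 6
    have t7 := h3 7
    have t8 := h3 8
    simp only [sum_range_succ, ea, fb, mem_singleton] at t0 t1 t2 t3 t4 t5 t6 t7 t8
    norm_num at t0 t1 t2 t3 t4 t5 t6 t7 t8
    obtain ⟨j, hj, hb⟩ := bits (fun i => if i = 7 then false else
      (List.range i).foldl (fun x k => x ^^ decide (k ∈ c)) (decide (7 ∈ c))) (by simp)
    refine mem_image.2 ⟨j, mem_range.2 hj, ?_⟩
    ext e
    simp only [cyc, mem_filter, hb _ (ea_lt e), hb _ (eb_lt e)]
    by_cases he : e < 16
    · interval_cases e <;> simp [ea, eb, List.range_succ] <;> grind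
    · simp only [mem_range, he, false_and, false_iff]
      exact fun h => he (mem_range.1 (h1 h))

/-! ### The constant coefficient of the Penrose polynomial -/

def star (v : ℕ) : Finset ℕ := cut ea eb (range 16) {v}

lemma cut_ins (S : Finset ℕ) (v : ℕ) (hv : v ∉ S) :
    cut ea eb (range 16) (insert v S) = cut ea eb (range 16) S ∆ star v := by
  ext e
  simp only [star, cut, mem_filter, mem_symmDiff, mem_insert, mem_singleton]
  grind

lemma mem_K (k : Finset ℕ) (hk : k ⊆ range 16) :
    k ∈ M0.K ↔ ∀ v < 8, Even (k ∩ star v).card := by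
  simp only [BM.K, mem_filter, mem_powerset]
  refine ⟨fun h v _ => h.2 _ (cut_mem _), fun h => ⟨hk, fun c hc => ?_⟩⟩
  obtain ⟨j, -, rfl⟩ := mem_image.1 hc
  rw [cyc_eq]
  have key : ∀ S : Finset ℕ, S ⊆ range 8 → Even (k ∩ cut ea eb (range 16) S).card := by
    intro S
    induction S using Finset.induction_on with
    | empty => simp [cut]
    | insert v S hv ih =>
      intro hS
      rw [cut_ins _ _ hv, inter_comm, inter_sd, even_sd, inter_comm _ k, inter_comm _ k]
      exact iff_of_true (ih ((subset_insert _ _).trans hS))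
        (h v (mem_range.1 (hS (mem_insert_self _ _))))
  exact key _ (filter_subset _ _)

def Wl : List ℕ :=
  [0x6666666666666666666666666666666666666666666666666666666666666666,
  0x3c3c3c3c3c3c3c3c3c3c3c3c3c3c3c3c3c3c3c3c3c3c3c3c3c3c3c3c3c3c3c3c00000000000000000000000000000000,
  0xff00ff00ff00ff00ff00ff00ff00ff00ff00ff00ff00ff00ff00ff00ff00ff00000000000000000000000000000000000000000000000000000000000000000,
  0xffff0000ffff0000ffff0000ffff0000ffff0000ffff0000ffff0000ffff00000000000000000000000000000000000000000000000000000000000000000000000000000000000000000000000000,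
  0xffffffff00000000ffffffff00000000ffffffff00000000ffffffff000000000000000000000000000000000000000000000000000000000000000000000000000000000000000000000000000000000000000000000000000000000000,
  0xffffffffffffffff0000000000000000ffffffffffffffff000000000000000000000000000000000000000000000000000000000000000000000000000000000000000000000000000000000000000000000000000000000000000000000000000000000000000000000000,
  0xffffffffffffffff0000000000000000ffffffffffffffff0000000000000000000000000000000000000000000000000000000000000000000000000000000000000000000000000000000000000000000000000000000000000000000000000000000000000000000000000000000000000000000000000000000000000000,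
  0xaaaaaaaaaaaaaaaaaaaaaaaaaaaaaaaa000000000000000000000000000000000000000000000000000000000000000000000000000000000000000000000000000000000000000000000000000000000000000000000000000000000000000000000000000000000000000000000000aaaaaaaaaaaaaaaaaaaaaaaaaaaaaaaa,
  0x5a5a5a5a5a5a5a5a5a5a5a5a5a5a5a5a000000000000000000000000000000005a5a5a5a5a5a5a5a5a5a5a5a5a5a5a5a,
  0x33cc33cc33cc33cc33cc33cc33cc33cc0000000000000000000000000000000033cc33cc33cc33cc33cc33cc33cc33cc00000000000000000000000000000000,
  0xf0ff0f00f0ff0f00f0ff0f00f0ff0f0000000000000000000000000000000000f0ff0f00f0ff0f00f0ff0f00f0ff0f00000000000000000000000000000000000000000000000000000000000000000,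
  0xff00ffff00ff0000ff00ffff00ff000000000000000000000000000000000000ff00ffff00ff0000ff00ffff00ff00000000000000000000000000000000000000000000000000000000000000000000000000000000000000000000000000,
  0xffff0000ffffffff0000ffff0000000000000000000000000000000000000000ffff0000ffffffff0000ffff000000000000000000000000000000000000000000000000000000000000000000000000000000000000000000000000000000000000000000000000000000000000,
  0xffffffff00000000ffffffff0000000000000000000000000000000000000000ffffffff00000000ffffffff000000000000000000000000000000000000000000000000000000000000000000000000000000000000000000000000000000000000000000000000000000000000000000000000000000000000000000000000,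
  0x5555555555555555aaaaaaaaaaaaaaaa00000000000000000000000000000000000000000000000000000000000000000000000000000000000000000000000000000000000000000000000000000000000000000000000000000000000000005555555555555555aaaaaaaaaaaaaaaa,
  0xcccccccccccccccccccccccccccccccc0000000000000000000000000000000000000000000000000000000000000000000000000000000000000000000000000000000000000000000000000000000000000000000000000000000000000000cccccccccccccccccccccccccccccccc00000000000000000000000000000000]

def orr (st : ℕ) : ℕ → ℕ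
  | 0 => 0
  | v + 1 => orr st v ||| (st >>> (128 * v))

def leaf (st : ℕ) : ℤ := if (orr st 8 ||| 1) % 2 ^ 128 = 2 ^ 128 - 1 then 1 else 0

def go : ℕ → ℕ → ℤ
  | 0, st => leaf st
  | n + 1, st => go n st - go n (st ^^^ Wl.getD n 0)

lemma go_val : go 16 0 = 160 := by decide +kernel

lemma W_bit : ∀ e < 16, ∀ v < 8, ∀ j < 128,
    (Wl.getD e 0).testBit (128 * v + j) = decide (e ∈ cyc j ∧ e ∈ star v) := by decide +kernel

def R (A : Finset ℕ) (st : ℕ) : Prop :=
  ∀ v < 8, ∀ j < 128, st.testBit (128 * v + j) = decide (¬ Even (cyc j ∩ A ∩ star v).card)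

lemma R_insert {A : Finset ℕ} {st e : ℕ} (h : R A st) (he : e < 16) (hA : e ∉ A) :
    R (insert e A) (st ^^^ Wl.getD e 0) := by
  intro v hv j hj
  rw [Nat.testBit_xor, h v hv j hj, W_bit e he v hv j hj]
  by_cases h1 : e ∈ cyc j ∧ e ∈ star v
  · have : cyc j ∩ insert e A ∩ star v = insert e (cyc j ∩ A ∩ star v) := by
      ext x; simp only [mem_inter, mem_insert]; grind
    rw [this, card_insert_of_notMem (by simp [hA])]
    simp only [h1, Nat.even_add_one, and_self, decide_true, Bool.xor_true, decide_not]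
  · have : cyc j ∩ insert e A ∩ star v = cyc j ∩ A ∩ star v := by
      ext x; simp only [mem_inter, mem_insert]; grind
    rw [this]
    simp only [h1, decide_false, Bool.xor_false]

lemma orr_bit (st n j : ℕ) : (orr st n).testBit j = true ↔ ∃ v < n, st.testBit (128 * v + j) = true := by
  induction n with
  | zero => simp [orr]
  | succ n ih =>
    rw [orr, Nat.testBit_or, Bool.or_eq_true, ih, Nat.testBit_shiftRight]
    constructor
    · rintro (⟨v, h1, h2⟩ | h)
      exacts [⟨v, by omega, h2⟩, ⟨n, by omega, h⟩]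
    · rintro ⟨v, h1, h2⟩
      by_cases h : v = n
      · right; rw [← h]; exact h2
      · left; exact ⟨v, by omega, h2⟩

lemma cyc_ne : ∀ j ∈ range 128, j ≠ 0 → cyc j ≠ ∅ := by decide +kernel

lemma leaf_eq {A : Finset ℕ} {st : ℕ} (h : R A st) :
    leaf st = if dim (M0.bic A) = 0 then 1 else 0 := by
  have h0 : cyc 0 = ∅ := by simp [cyc]
  have h1 : dim (M0.bic A) = 0 ↔ ∀ j < 128, j ≠ 0 → cyc j ∩ A ∉ M0.K := by
    have he : ∅ ∈ M0.bic A := mem_filter.2 ⟨M0.empty, by simp [BM.K]⟩
    rw [dim, Nat.log_eq_zero_iff]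
    rw [or_iff_left (show ¬ (2 ≤ 1) by omega), Nat.lt_succ_iff, card_le_one]
    constructor
    · intro h j hj hj0 hK
      exact cyc_ne j (mem_range.2 hj) hj0
        (h _ (mem_filter.2 ⟨mem_image_of_mem _ (mem_range.2 hj), hK⟩) _ he)
    · intro h
      have key : ∀ c ∈ M0.bic A, c = ∅ := by
        intro c hc
        obtain ⟨h2, h3⟩ := mem_filter.1 hc
        obtain ⟨j, hj, rfl⟩ := mem_image.1 h2
        by_cases hj0 : j = 0
        · rw [hj0, h0]
        · exact absurd h3 (h j (mem_range.1 hj) hj0)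
      intro c hc d hd
      rw [key c hc, key d hd]
  have h1b : ∀ j, Nat.testBit 1 j = decide (j = 0) := by
    intro j
    have := Nat.testBit_two_pow (n := 0) (m := j)
    rw [pow_zero] at this
    rw [this]; simp [eq_comm]
  have h2 : (orr st 8 ||| 1) % 2 ^ 128 = 2 ^ 128 - 1 ↔
      ∀ j < 128, j ≠ 0 → (orr st 8).testBit j = true := by
    rw [Nat.eq_iff_testBit_eq]
    simp only [Nat.testBit_mod_two_pow, Nat.testBit_two_pow_sub_one, Nat.testBit_or]
    constructor
    · intro h j hj hj0
      have := h j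
      rw [h1b] at this
      simpa [hj, hj0] using this
    · intro h j
      rw [h1b]
      by_cases hj : j < 128
      · by_cases hj0 : j = 0
        · simp [hj0]
        · simp [hj, h j hj hj0]
      · simp [hj]
  unfold leaf
  refine if_congr ?_ rfl rfl
  rw [h1, h2]
  refine forall_congr' fun j => forall_congr' fun hj => forall_congr' fun _ => ?_
  have hs : cyc j ∩ A ⊆ range 16 := inter_subset_left.trans (filter_subset _ _)
  rw [orr_bit, mem_K _ hs]
  push Not
  refine exists_congr fun v => and_congr_right fun hv => ?_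
  rw [h v hv j hj]
  simp

lemma go_eq (n : ℕ) (hn : n ≤ 16) : ∀ (A0 : Finset ℕ) (st : ℕ), (∀ x ∈ A0, n ≤ x) → R A0 st →
    go n st = ∑ A ∈ (range n).powerset,
      (-1 : ℤ) ^ A.card * (if dim (M0.bic (A ∪ A0)) = 0 then 1 else 0) := by
  induction n with
  | zero => intro A0 st _ h; simp [go, leaf_eq h]
  | succ n ih =>
    intro A0 st h1 h2
    have h3 : n ∉ A0 := fun h => by have := h1 n h; omega
    rw [go, ih (by omega) A0 st (fun x hx => by have := h1 x hx; omega) h2,
      ih (by omega) (insert n A0) _ (fun x hx => by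
        rcases mem_insert.1 hx with h | h
        · omega
        · have := h1 x h; omega) (R_insert h2 (by omega) h3),
      range_add_one, sum_powerset_insert notMem_range_self, sub_eq_add_neg, ← sum_neg_distrib]
    congr 1
    refine sum_congr rfl fun A hA => ?_
    rw [card_insert_of_notMem (fun h => notMem_range_self (mem_powerset.1 hA h)), insert_union,
      union_insert, pow_succ]
    ring

lemma coeff0 : M0.penrose.coeff 0 = 160 := by
  rw [← go_val, go_eq 16 le_rfl ∅ 0 (by simp) (by intro v _ j _; simp), BM.penrose,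
    Polynomial.finset_sum_coeff]
  refine sum_congr rfl fun A _ => ?_
  rw [Polynomial.coeff_C_mul, Polynomial.coeff_X_pow, union_empty]
  simp only [eq_comm]

lemma M0_dim : dim M0.C = 7 := by
  have : M0.C.card = 128 := by
    change ((range 128).image cyc).card = 128
    decide +kernel
  rw [dim, this]; norm_num

lemma M0_nonalt : ¬ M0.Alternating := by
  intro h
  have := h 0 (Nat.zero_le _)
  rw [M0_dim, coeff0] at this
  norm_num at this

lemma M0_br : M0.Bridgeless := by
  change ∀ e ∈ range 16, ∃ c ∈ (range 128).image cyc, e ∈ c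
  simp only [mem_image, exists_exists_and_eq_and]
  decide +kernel

lemma not_pet {N : BM} (h : Minor M0 N) : ¬ Iso N petersen := by
  intro hi
  have h15 : N.E.card = 15 := iso_card hi
  obtain ⟨h1, h2⟩ := minor_keep h
  have h3 : ∀ s ∈ powersetCard 15 (range 16), ∃ v ∈ range 8, star v ⊆ s ∧ (star v).card = 4 := by
    decide +kernel
  obtain ⟨v, -, h4, h5⟩ := h3 N.E (mem_powersetCard.2 ⟨h1, h15⟩)
  obtain ⟨d, hd, e⟩ := iso_weight hi (h2 _ (cut_mem _) h4)
  exact pet_w d hd (e.trans h5)

/-- There is a minimal non-alternating bridgeless binary matroid that is isomorphic to none of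
`F*`, `Pet`, `K₅*`. -/
theorem result : ∃ M : BM, M.MinNonAlt ∧
    ¬ Iso M fano.dual ∧ ¬ Iso M petersen ∧ ¬ Iso M k5.dual := by
  classical
  have hex : ∃ n, ∃ N, Minor M0 N ∧ N.Bridgeless ∧ ¬ N.Alternating ∧ N.E.card = n :=
    ⟨_, M0, Minor.refl, M0_br, M0_nonalt, rfl⟩
  obtain ⟨N, h1, h2, h3, h4⟩ := Nat.find_spec hex
  refine ⟨N, ⟨h2, h3, fun Q hQ hlt hb => ?_⟩, not_fano h2 (minor_cog h1 M0_cog), not_pet h1,
    not_k5 (minor_gr h1 M0_gr)⟩
  by_contra hn
  exact Nat.find_min hex (h4 ▸ hlt) ⟨Q, minor_trans h1 hQ, hb, hn, rfl⟩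


end Pool.Agent.Results.MP_5bb8bc_co.Antiprism
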